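import Pool.Agent.ARC.StmtsA

/-!
# ARC, row DIR: simultaneous approximation
-/

set_option autoImplicit false

namespace Pool.Agent.ARC.H62

theorem dir_aux {n Q : ℕ} (hQ : 0 < Q) (ξ : Fin n → ℝ) (x y : ℕ) (hxy : x < y)
    (h : ∀ i, ⌊(Q : ℝ) * Int.fract ((x : ℝ) * ξ i)⌋ = ⌊(Q : ℝ) * Int.fract ((y : ℝ) * ξ i)⌋) :
    ∀ i, ∃ N : ℤ, |((y - x : ℕ) : ℝ) * ξ i - (N : ℝ)| ≤ 1 / (Q : ℝ) := by
  intro i
  refine ⟨⌊(y : ℝ) * ξ i⌋ - ⌊(x : ℝ) * ξ i⌋, ?_⟩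
  have hQ' : (0 : ℝ) < Q := by exact_mod_cast hQ
  have h1 := Int.abs_sub_lt_one_of_floor_eq_floor (h i)
  have h2 : ((y - x : ℕ) : ℝ) * ξ i - ((⌊(y : ℝ) * ξ i⌋ - ⌊(x : ℝ) * ξ i⌋ : ℤ) : ℝ) =
      -(Int.fract ((x : ℝ) * ξ i) - Int.fract ((y : ℝ) * ξ i)) := by
    unfold Int.fract
    rw [Nat.cast_sub hxy.le]
    push_cast
    ring
  rw [h2, abs_neg, le_div_iff₀ hQ']
  rw [← mul_sub, abs_mul, abs_of_pos hQ'] at h1
  linarith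

theorem dir : DirStmt := by
  intro n Q hQ ξ
  have hQ' : (0 : ℝ) < Q := by exact_mod_cast hQ
  have hb : ∀ s : ℝ, (⌊(Q : ℝ) * Int.fract s⌋).toNat < Q := by
    intro s
    have h0 : 0 ≤ ⌊(Q : ℝ) * Int.fract s⌋ := Int.floor_nonneg.2 (by
      have := Int.fract_nonneg s
      positivity)
    have h1 : ⌊(Q : ℝ) * Int.fract s⌋ < (Q : ℤ) := by
      rw [Int.floor_lt]
      have := Int.fract_lt_one s
      push_cast
      nlinarith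
    omega
  have hn : ∀ s : ℝ, ((⌊(Q : ℝ) * Int.fract s⌋).toNat : ℤ) = ⌊(Q : ℝ) * Int.fract s⌋ := by
    intro s
    refine Int.toNat_of_nonneg (Int.floor_nonneg.2 ?_)
    have := Int.fract_nonneg s
    positivity
  let f : Fin (Q ^ n + 1) → (Fin n → Fin Q) := fun c i =>
    ⟨(⌊(Q : ℝ) * Int.fract (((c : ℕ) : ℝ) * ξ i)⌋).toNat, hb _⟩
  obtain ⟨x, y, hne, hxy⟩ := Fintype.exists_ne_map_eq_of_card_lt f (by
    rw [Fintype.card_fun, Fintype.card_fin, Fintype.card_fin, Fintype.card_fin]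
    exact Nat.lt_succ_self _)
  have key : ∀ i, ⌊(Q : ℝ) * Int.fract (((x : ℕ) : ℝ) * ξ i)⌋ =
      ⌊(Q : ℝ) * Int.fract (((y : ℕ) : ℝ) * ξ i)⌋ := by
    intro i
    have h1 := congrArg Fin.val (congrFun hxy i)
    simp only [f] at h1
    have h2 : ((⌊(Q : ℝ) * Int.fract (((x : ℕ) : ℝ) * ξ i)⌋).toNat : ℤ) =
      ((⌊(Q : ℝ) * Int.fract (((y : ℕ) : ℝ) * ξ i)⌋).toNat : ℤ) := congrArg Int.ofNat h1
    exact (hn _).symm.trans (h2.trans (hn _))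
  have hx := x.2
  have hy := y.2
  rcases lt_or_gt_of_ne (fun h => hne (Fin.ext h) : (x : ℕ) ≠ y) with h | h
  · exact ⟨(y : ℕ) - x, by omega, by omega, dir_aux hQ ξ x y h key⟩
  · exact ⟨(x : ℕ) - y, by omega, by omega, dir_aux hQ ξ y x h fun i => (key i).symm⟩

end Pool.Agent.ARC.H62
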