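import Pool.Agent.ARC.StmtsU

/-!
# ARC, row EGD: eigenspaces of a translation in TN
-/

set_option autoImplicit false

namespace Pool.Agent.ARC.H62

open scoped BigOperators InnerProductSpace
open Pool.Agent.THS Pool.Agent.ZES

/-- translation as a linear map of `TN` -/
noncomputable def tvL {V : Type} [NormedAddCommGroup V] [InnerProductSpace ℂ V] (L : AddSubgroup V)
    (χ : V → ℂ) (n : ℕ) (η : V) (h : ∀ F ∈ TN L χ n, tv n η F ∈ TN L χ n) :
    ↥(TN L χ n) →ₗ[ℂ] ↥(TN L χ n) where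
  toFun F := ⟨tv n η F, h F F.2⟩
  map_add' F G := by
    apply Subtype.ext
    funext x
    change (((F : V → ℂ) (x + η) + (G : V → ℂ) (x + η)) * _ : ℂ) = _ * _ + _ * _
    rw [add_mul]
  map_smul' c F := by
    apply Subtype.ext
    funext x
    change ((c * (F : V → ℂ) (x + η)) * _ : ℂ) = c * (_ * _)
    rw [mul_assoc]

theorem rt_pow (n κ : ℕ) : rt n κ = rt n 1 ^ κ := by
  unfold rt
  rw [← Complex.exp_nat_mul]
  congr 1
  push_cast
  ring

theorem rt_prim {n : ℕ} (hn : 1 ≤ n) : IsPrimitiveRoot (rt n 1) n := by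
  have h := Complex.isPrimitiveRoot_exp n (by omega)
  have e : rt n 1 = Complex.exp (2 * Real.pi * Complex.I / (n : ℂ)) := by
    unfold rt
    rw [Nat.cast_one, mul_one]
  rwa [e]

theorem egd (hT : Tv1Stmt) (hE : EigStmt) : EgdStmt := by
  intro V _ _ L χ hL n g hn hfin hrank u hu u1 hu1 hsym κ S hS hSe
  obtain ⟨t1, -, t3, t4, t5, -⟩ := hT V L χ hL n hn
  have hnC : (n : ℂ) ≠ 0 := by
    have : 0 < n := hn
    exact_mod_cast this.ne'
  have hfr : ∀ v : V, (n : ℂ) • fr n v = v := by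
    intro v
    unfold fr
    rw [smul_smul, mul_inv_cancel₀ hnC, one_smul]
  let U := tvL L χ n (fr n u) (t1 (fr n u) (by rw [hfr]; exact hu))
  let A := tvL L χ n (fr n u1) (t1 (fr n u1) (by rw [hfr]; exact hu1))
  have hU : ∀ F : ↥(TN L χ n), ((U F : ↥(TN L χ n)) : V → ℂ) = tv n (fr n u) F := fun F => rfl
  have hA : ∀ F : ↥(TN L χ n), ((A F : ↥(TN L χ n)) : V → ℂ) = tv n (fr n u1) F := fun F => rfl
  have hAinj : Function.Injective A := by
    intro F G hFG
    have h1 : tv n (fr n u1) (F : V → ℂ) = tv n (fr n u1) (G : V → ℂ) := by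
      rw [← hA, ← hA, hFG]
    have h2 : ∀ K : V → ℂ, (tv n (fr n u1))^[n] K = tv n u1 K := by
      intro K
      rw [t4, hfr]
    have h3 : tv n u1 (F : V → ℂ) = tv n u1 (G : V → ℂ) := by
      rw [← h2, ← h2]
      obtain ⟨m, rfl⟩ : ∃ m, n = m + 1 := ⟨n - 1, by omega⟩
      rw [Function.iterate_succ_apply, Function.iterate_succ_apply, h1]
    apply Subtype.ext
    funext x
    have h4 := congrFun h3 x
    rw [t5 u1 hu1 F F.2, t5 u1 hu1 G G.2] at h4
    have h5 : χ u1 ≠ 0 := by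
      intro h0
      have := hL.sq u1 hu1
      rw [h0, zero_pow two_ne_zero] at this
      exact zero_ne_one this
    exact mul_left_cancel₀ (pow_ne_zero n h5) h4
  have hcomm : ∀ F : ↥(TN L χ n), U (A F) = rt n 1 • A (U F) := by
    intro F
    apply Subtype.ext
    funext x
    rw [hU, hA, Submodule.coe_smul, hA, hU]
    rw [t3 (fr n u) (fr n u1) F x]
    change _ = rt n 1 * _
    congr 1
    unfold rt
    congr 1
    have h6 : (inner ℂ (fr n u) (fr n u1)).im = ((n : ℝ)⁻¹) ^ 2 := by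
      unfold fr
      rw [inner_smul_left, inner_smul_right, map_inv₀, Complex.conj_natCast]
      have h7 : ((n : ℂ))⁻¹ * ((n : ℂ)⁻¹ * inner ℂ u u1) =
          ((((n : ℝ)⁻¹) ^ 2 : ℝ) : ℂ) * inner ℂ u u1 := by
        push_cast
        ring
      rw [h7, Complex.im_ofReal_mul, hsym, mul_one]
    rw [h6]
    push_cast
    field_simp
  have key := hE ↥(TN L χ n) U A n (rt n 1) hn (rt_prim hn) hAinj hcomm κ
  have hsub : S.submoduleOf (TN L χ n) ≤ Module.End.eigenspace U (rt n 1 ^ κ) := by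
    intro F hF
    rw [Module.End.mem_eigenspace_iff]
    apply Subtype.ext
    rw [hU, Submodule.coe_smul, ← rt_pow]
    exact hSe F hF
  let e := Submodule.submoduleOfEquivOfLe hS
  have hfinE : Module.Finite ℂ ↥(S.submoduleOf (TN L χ n)) := inferInstance
  refine ⟨Module.Finite.equiv e, ?_⟩
  rw [← e.finrank_eq]
  have h8 : Module.finrank ℂ ↥(S.submoduleOf (TN L χ n)) ≤
      Module.finrank ℂ ↥(Module.End.eigenspace U (rt n 1 ^ κ)) := Submodule.finrank_mono hsub
  refine h8.trans ?_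
  have h9 := key.trans hrank
  rcases Nat.eq_zero_or_pos g with hg | hg
  · rw [hg, pow_zero] at h9
    rw [hg]
    have h10 := Nat.le_mul_of_pos_left
      (Module.finrank ℂ ↥(Module.End.eigenspace U (rt n 1 ^ κ))) (show 0 < n from hn)
    exact h10.trans h9
  · obtain ⟨g', rfl⟩ : ∃ g', g = g' + 1 := ⟨g - 1, by omega⟩
    rw [pow_succ, mul_comm (n ^ g') n] at h9
    exact Nat.le_of_mul_le_mul_left h9 (show 0 < n from hn)

end Pool.Agent.ARC.H62
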