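import Pool.Agent.ARC.StmtsP

/-!
# ARC, row AMX: minors of the matrix of theta values
-/

set_option autoImplicit false

namespace Pool.Agent.ARC.H62

open scoped BigOperators
open Pool.Agent.THS Pool.Agent.ZES
open Pool.Agent.SZG (Ch Idx gam QS WX Wf Xf Mp FF Bx Row lft Zz IM)

/-! ### Quadratic forms -/

theorem Yv_lin {g : ℕ} (τ : Matrix (Fin g) (Fin g) ℂ) (s t : ℝ) (y q : Fin g → ℝ) (r : Fin g) :
    Yv τ (fun i => s * y i + t * q i) r = s * Yv τ y r + t * Yv τ q r := by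
  unfold Yv
  rw [Finset.mul_sum, Finset.mul_sum, ← Finset.sum_add_distrib]
  exact Finset.sum_congr rfl fun j _ => by ring

theorem Yq_lin {g : ℕ} {τ : Matrix (Fin g) (Fin g) ℂ} (hτ : Siegel τ) (s t : ℝ)
    (y q : Fin g → ℝ) :
    Yq τ (fun i => s * y i + t * q i) =
      s ^ 2 * Yq τ y + 2 * s * t * (∑ i, q i * Yv τ y i) + t ^ 2 * Yq τ q := by
  have hsym : ∀ i j, τ i j = τ j i := fun i j => congrFun (congrFun hτ.1 j) i
  have h1 : ∑ i, ∑ j, y i * (τ i j).im * q j = ∑ i, q i * Yv τ y i := by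
    rw [Finset.sum_comm]
    refine Finset.sum_congr rfl fun j _ => ?_
    unfold Yv
    rw [Finset.mul_sum]
    refine Finset.sum_congr rfl fun i _ => ?_
    rw [hsym i j]
    ring
  have h2 : ∑ i, ∑ j, q i * (τ i j).im * y j = ∑ i, q i * Yv τ y i := by
    refine Finset.sum_congr rfl fun j _ => ?_
    unfold Yv
    rw [Finset.mul_sum]
    exact Finset.sum_congr rfl fun i _ => by ring
  have h3 : Yq τ (fun i => s * y i + t * q i) = s ^ 2 * Yq τ y +
      s * t * (∑ i, ∑ j, y i * (τ i j).im * q j) + s * t * (∑ i, ∑ j, q i * (τ i j).im * y j) +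
      t ^ 2 * Yq τ q := by
    unfold Yq
    simp only [Finset.mul_sum, ← Finset.sum_add_distrib]
    refine Finset.sum_congr rfl fun i _ => Finset.sum_congr rfl fun j _ => ?_
    ring
  rw [h3, h1, h2]
  ring

theorem dt_lin {g : ℕ} (h : Fin g → ℤ) (s t : ℝ) (y q : Fin g → ℝ) :
    dt h (fun i => s * y i + t * q i) = s * dt h y + t * dt h q := by
  unfold dt
  rw [Finset.mul_sum, Finset.mul_sum, ← Finset.sum_add_distrib]
  exact Finset.sum_congr rfl fun j _ => by ring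

/-! ### The point `W` -/

/-- `W = l w + (p + τ q)/l` -/
noncomputable def WW {g : ℕ} (τ : Matrix (Fin g) (Fin g) ℂ) (l : ℕ) (p q : Fin g → ℤ)
    (w : Fin g → ℂ) : Fin g → ℂ :=
  fun r => (l : ℂ) * w r + ((p r : ℂ) + ∑ j, τ r j * (q j : ℂ)) / (l : ℂ)

/-- the exponential factor -/
noncomputable def EE {g : ℕ} (q : Fin g → ℤ) (w : Fin g → ℂ) : ℂ :=
  Complex.exp (16 * Real.pi * Complex.I * ∑ i, (q i : ℂ) * w i)

/-- `y' = l y + q/l` -/
noncomputable def yy {g : ℕ} (l : ℕ) (q : Fin g → ℤ) (y : Fin g → ℝ) : Fin g → ℝ :=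
  fun i => (l : ℝ) * y i + (1 / (l : ℝ)) * (q i : ℝ)

theorem FF_eq {g : ℕ} (τ : Matrix (Fin g) (Fin g) ℂ) (l : ℕ) (p q : Fin g → ℤ) (a : Ch g)
    (w : Fin g → ℂ) : FF τ l p q a w = EE q w * Thc τ a (fun r => 2 * WW τ l p q w r) := by
  unfold FF EE
  congr 2
  funext r
  unfold WW
  ring

theorem WW_im {g : ℕ} (τ : Matrix (Fin g) (Fin g) ℂ) (l : ℕ) (p q : Fin g → ℤ)
    (w : Fin g → ℂ) (y : Fin g → ℝ) (hw : ∀ i, (w i).im = Yv τ y i) (r : Fin g) :
    (WW τ l p q w r).im = Yv τ (yy l q y) r := by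
  have h1 : Yv τ (yy l q y) r = (l : ℝ) * Yv τ y r + (1 / (l : ℝ)) * Yv τ (fun i => (q i : ℝ)) r :=
    Yv_lin τ _ _ _ _ r
  have h2 : (∑ j, τ r j * (q j : ℂ)).im = Yv τ (fun i => (q i : ℝ)) r := by
    rw [Complex.im_sum]
    unfold Yv
    refine Finset.sum_congr rfl fun j _ => ?_
    rw [Complex.mul_im, Complex.intCast_re, Complex.intCast_im, mul_zero, zero_add]
  have h3 : ((l : ℂ) * w r).im = (l : ℝ) * (w r).im := by
    rw [Complex.mul_im, Complex.natCast_re, Complex.natCast_im, zero_mul, add_zero]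
  unfold WW
  rw [Complex.add_im, Complex.div_natCast_im, Complex.add_im, Complex.intCast_im, h2, h3, hw r, h1]
  ring

theorem EE_norm {g : ℕ} {τ : Matrix (Fin g) (Fin g) ℂ} (q : Fin g → ℤ)
    (w : Fin g → ℂ) (y : Fin g → ℝ) (hw : ∀ i, (w i).im = Yv τ y i) :
    ‖EE q w‖ = Real.exp (-(16 * Real.pi * ∑ i, (q i : ℝ) * Yv τ y i)) := by
  unfold EE
  rw [Complex.norm_exp]
  congr 1
  have h1 : (∑ i, (q i : ℂ) * w i).im = ∑ i, (q i : ℝ) * Yv τ y i := by
    rw [Complex.im_sum]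
    refine Finset.sum_congr rfl fun i _ => ?_
    rw [Complex.mul_im, Complex.intCast_re, Complex.intCast_im, zero_mul, add_zero, hw i]
  have h2 : (16 * Real.pi * Complex.I * ∑ i, (q i : ℂ) * w i) =
      ((16 * Real.pi : ℝ) : ℂ) * (Complex.I * ∑ i, (q i : ℂ) * w i) := by
    push_cast
    ring
  rw [h2, Complex.re_ofReal_mul, Complex.I_mul_re, h1]
  ring

theorem star {g : ℕ} {τ : Matrix (Fin g) (Fin g) ℂ} (hτ : Siegel τ) {l : ℕ} (hl : 0 < l)
    (q : Fin g → ℤ) (w : Fin g → ℂ) (y : Fin g → ℝ) (hw : ∀ i, (w i).im = Yv τ y i) :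
    ‖EE q w‖ * Real.exp (8 * Real.pi * Yq τ (yy l q y)) =
      Real.exp (8 * Real.pi * Yq τ (fun m => (q m : ℝ)) / (l : ℝ) ^ 2) *
        Real.exp (8 * Real.pi * (l : ℝ) ^ 2 * Yq τ y) := by
  have hl' : (l : ℝ) ≠ 0 := by exact_mod_cast hl.ne'
  rw [EE_norm q w y hw, ← Real.exp_add, ← Real.exp_add]
  congr 1
  have h1 : Yq τ (yy l q y) = (l : ℝ) ^ 2 * Yq τ y +
      2 * (l : ℝ) * (1 / (l : ℝ)) * (∑ i, (q i : ℝ) * Yv τ y i) +
      (1 / (l : ℝ)) ^ 2 * Yq τ (fun m => (q m : ℝ)) := Yq_lin hτ _ _ _ _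
  rw [h1]
  field_simp
  ring

/-! ### One entry of the matrix -/

theorem core {g : ℕ} {τ : Matrix (Fin g) (Fin g) ℂ} (hS : SlsStmt) (hB : SlbStmt) (hT : TaiStmt)
    (hτ : Siegel τ) (ht0 : 0 < t0 τ) {l : ℕ} (hl : 0 < l) {lam : ℝ} {h : Fin g → ℤ} {L : ℕ}
    (hlam : 1 ≤ lam) (hL : 1 ≤ L) (hh0 : h ≠ 0) (hYq : ∀ y : Fin g → ℝ, lam * dt h y ^ 2 ≤ Yq τ y)
    (p q : Fin g → ℤ) (a : Ch g) (w : Fin g → ℂ) (y : Fin g → ℝ)
    (hw : ∀ i, (w i).im = Yv τ y i) (N : ℤ) (hN : |dt h y - (N : ℝ)| ≤ 1 / (2 * (l : ℝ)))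
    (s0 : ℤ)
    (hs0 : s0 = ⌈-(dt h (hv a) + 2 * (dt h (fun m => (q m : ℝ)) / (l : ℝ))) - (L : ℝ) - 1⌉) :
    (∀ j : ℤ, ‖EE q w * sl τ a h j (WW τ l p q w)‖ ≤ 2 ^ g *
      (Real.exp (8 * Real.pi * Yq τ (fun m => (q m : ℝ)) / (l : ℝ) ^ 2) *
        (t0 τ * Real.exp (8 * Real.pi * (l : ℝ) ^ 2 * Yq τ y)))) ∧
    ‖FF τ l p q a w - ∑ s : Fin (2 * L + 4), EE q w *
        sl τ a h (s0 + ((s : ℕ) : ℤ) - 2 * (l : ℤ) * N) (WW τ l p q w)‖ ≤
      Real.exp (-(2 * Real.pi * lam * (L : ℝ) ^ 2)) * (4 * 2 ^ g *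
      Real.exp (8 * Real.pi * Yq τ (fun m => (q m : ℝ)) / (l : ℝ) ^ 2) *
        (t0 τ * Real.exp (8 * Real.pi * (l : ℝ) ^ 2 * Yq τ y))) := by
  classical
  have hl' : (0 : ℝ) < l := by exact_mod_cast hl
  have hst := star hτ hl q w y hw
  have hpi := Real.pi_pos
  -- bound for the slices
  have hb : ∀ j : ℤ, ‖sl τ a h j (WW τ l p q w)‖ ≤ 2 ^ g * t0 τ *
      Real.exp (8 * Real.pi * Yq τ (yy l q y)) * Real.exp (-(2 * Real.pi * lam *
        ((j : ℝ) + (dt h (hv a) + 2 * dt h (yy l q y))) ^ 2)) := by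
    intro j
    have h1 := hB g τ hτ a h lam hh0 hYq (WW τ l p q w) (yy l q y)
      (WW_im τ l p q w y hw) j
    have h2 : Real.exp (8 * Real.pi * Yq τ (yy l q y)
      - 2 * Real.pi * lam * ((j : ℝ) + dt h (hv a) + 2 * dt h (yy l q y)) ^ 2) =
      Real.exp (8 * Real.pi * Yq τ (yy l q y)) * Real.exp (-(2 * Real.pi * lam *
        ((j : ℝ) + (dt h (hv a) + 2 * dt h (yy l q y))) ^ 2)) := by
      rw [← Real.exp_add]
      congr 1
      ring
    rw [h2] at h1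
    calc _ ≤ _ := h1
      _ = _ := by ring
  refine ⟨?_, ?_⟩
  · intro j
    rw [norm_mul]
    have h1 : Real.exp (-(2 * Real.pi * lam *
        ((j : ℝ) + (dt h (hv a) + 2 * dt h (yy l q y))) ^ 2)) ≤ 1 := by
      rw [Real.exp_le_one_iff]
      have : 0 ≤ 2 * Real.pi * lam *
        ((j : ℝ) + (dt h (hv a) + 2 * dt h (yy l q y))) ^ 2 := by positivity
      linarith
    have h2 : ‖sl τ a h j (WW τ l p q w)‖ ≤ 2 ^ g * t0 τ *
      Real.exp (8 * Real.pi * Yq τ (yy l q y)) := by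
      refine (hb j).trans ?_
      exact mul_le_of_le_one_right (by positivity) h1
    calc ‖EE q w‖ * ‖sl τ a h j (WW τ l p q w)‖ ≤ ‖EE q w‖ * (2 ^ g * t0 τ *
          Real.exp (8 * Real.pi * Yq τ (yy l q y))) :=
          mul_le_mul_of_nonneg_left h2 (norm_nonneg _)
      _ = 2 ^ g * t0 τ * (‖EE q w‖ * Real.exp (8 * Real.pi * Yq τ (yy l q y))) := by ring
      _ = _ := by rw [hst]; ring
  · obtain ⟨hsum, hthc⟩ := (hS g τ hτ a h).1 (WW τ l p q w)
    let x : ℝ := dt h (hv a) + 2 * dt h (yy l q y)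
    obtain ⟨htail, htle⟩ := hT lam x L hlam hL
    let emb : Fin (2 * L + 4) → ℤ := fun s => s0 + ((s : ℕ) : ℤ) - 2 * (l : ℤ) * N
    have hemb : Function.Injective emb := by
      intro s s' hss
      simp only [emb] at hss
      exact Fin.ext (by omega)
    let S : Finset ℤ := Finset.univ.image emb
    have hSmem : ∀ j : ℤ, j ∉ S → (L : ℝ) ≤ |(j : ℝ) + x| := by
      intro j hj
      have h1 : j + 2 * (l : ℤ) * N < s0 ∨ s0 + (2 * L + 4) ≤ j + 2 * (l : ℤ) * N := by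
        by_contra hcon
        push Not at hcon
        apply hj
        have h2 : (j + 2 * (l : ℤ) * N - s0).toNat < 2 * L + 4 := by omega
        refine Finset.mem_image.2 ⟨⟨(j + 2 * (l : ℤ) * N - s0).toNat, h2⟩, Finset.mem_univ _, ?_⟩
        simp only [emb]
        omega
      have hy' : dt h (yy l q y) = (l : ℝ) * dt h y + (1 / (l : ℝ)) * dt h (fun m => (q m : ℝ)) :=
        dt_lin h _ _ _ _
      have hd : |2 * (l : ℝ) * (dt h y - N)| ≤ 1 := by
        rw [abs_mul, abs_of_pos (by positivity : (0 : ℝ) < 2 * l)]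
        calc 2 * (l : ℝ) * |dt h y - N| ≤ 2 * (l : ℝ) * (1 / (2 * (l : ℝ))) :=
              mul_le_mul_of_nonneg_left hN (by positivity)
          _ = 1 := by field_simp
      have hx : (j : ℝ) + x = ((j + 2 * (l : ℤ) * N : ℤ) : ℝ) + (dt h (hv a) + 2 *
          (dt h (fun m => (q m : ℝ)) / (l : ℝ))) + 2 * (l : ℝ) * (dt h y - N) := by
        simp only [x]
        rw [hy']
        push_cast
        ring
      have hd' := abs_le.1 hd
      rcases h1 with h1 | h1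
      · rw [hs0, Int.lt_ceil] at h1
        rw [hx, le_abs]
        right
        linarith [hd'.2]
      · have h2 := Int.le_ceil (-(dt h (hv a) + 2 * (dt h (fun m => (q m : ℝ)) / (l : ℝ))) -
          (L : ℝ) - 1)
        rw [← hs0] at h2
        have h3 : (((s0 + (2 * L + 4) : ℤ)) : ℝ) ≤ ((j + 2 * (l : ℤ) * N : ℤ) : ℝ) := by
          exact_mod_cast h1
        have h4 : (((s0 + (2 * L + 4) : ℤ)) : ℝ) = (s0 : ℝ) + (2 * (L : ℝ) + 4) := by push_cast; ring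
        rw [h4] at h3
        rw [hx, le_abs]
        left
        linarith [hd'.1]
    have hF : HasSum (fun j : ℤ => sl τ a h j (WW τ l p q w))
        (Thc τ a (fun r => 2 * WW τ l p q w r)) := by
      rw [hthc]
      exact hsum.of_norm.hasSum
    have hF2 : HasSum (fun j : ℤ => if j ∈ S then sl τ a h j (WW τ l p q w) else 0)
        (∑ j ∈ S, sl τ a h j (WW τ l p q w)) := by
      have h1 : HasSum (fun j : ℤ => if j ∈ S then sl τ a h j (WW τ l p q w) else 0)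
          (∑ j ∈ S, (if j ∈ S then sl τ a h j (WW τ l p q w) else 0)) :=
        hasSum_sum_of_ne_finset_zero (fun j hj => if_neg hj)
      rw [Finset.sum_congr rfl fun j hj => if_pos hj] at h1
      exact h1
    have hF3 := hF.sub hF2
    have hG : HasSum (fun j : ℤ => 2 ^ g * t0 τ * Real.exp (8 * Real.pi * Yq τ (yy l q y)) *
        (if (L : ℝ) ≤ |(j : ℝ) + x| then
          Real.exp (-(2 * Real.pi * lam * ((j : ℝ) + x) ^ 2)) else 0))
        (2 ^ g * t0 τ * Real.exp (8 * Real.pi * Yq τ (yy l q y)) *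
        ∑' j : ℤ, (if (L : ℝ) ≤ |(j : ℝ) + x| then
          Real.exp (-(2 * Real.pi * lam * ((j : ℝ) + x) ^ 2)) else 0)) :=
      htail.hasSum.mul_left _
    have h5 : ‖Thc τ a (fun r => 2 * WW τ l p q w r) - ∑ j ∈ S, sl τ a h j (WW τ l p q w)‖ ≤
        2 ^ g * t0 τ * Real.exp (8 * Real.pi * Yq τ (yy l q y)) *
        ∑' j : ℤ, (if (L : ℝ) ≤ |(j : ℝ) + x| then
          Real.exp (-(2 * Real.pi * lam * ((j : ℝ) + x) ^ 2)) else 0) := by
      rw [← hF3.tsum_eq]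
      refine tsum_of_norm_bounded hG fun j => ?_
      by_cases hj : j ∈ S
      · rw [if_pos hj, sub_self, norm_zero]
        have : 0 ≤ (if (L : ℝ) ≤ |(j : ℝ) + x| then
          Real.exp (-(2 * Real.pi * lam * ((j : ℝ) + x) ^ 2)) else 0) := by
          split_ifs
          · exact (Real.exp_pos _).le
          · exact le_rfl
        positivity
      · rw [if_neg hj, sub_zero, if_pos (hSmem j hj)]
        exact hb j
    have h6 : ∑ s : Fin (2 * L + 4), EE q w *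
        sl τ a h (s0 + ((s : ℕ) : ℤ) - 2 * (l : ℤ) * N) (WW τ l p q w) =
        EE q w * ∑ j ∈ S, sl τ a h j (WW τ l p q w) := by
      rw [Finset.sum_image (fun s _ s' _ hss => hemb hss), Finset.mul_sum]
    rw [FF_eq, h6, ← mul_sub, norm_mul]
    calc ‖EE q w‖ * ‖Thc τ a (fun r => 2 * WW τ l p q w r) - ∑ j ∈ S, sl τ a h j (WW τ l p q w)‖
        ≤ ‖EE q w‖ * (2 ^ g * t0 τ * Real.exp (8 * Real.pi * Yq τ (yy l q y)) *
          (4 * Real.exp (-(2 * Real.pi * lam * (L : ℝ) ^ 2)))) := by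
          refine mul_le_mul_of_nonneg_left (h5.trans ?_) (norm_nonneg _)
          exact mul_le_mul_of_nonneg_left htle (by positivity)
      _ = 4 * 2 ^ g * t0 τ * Real.exp (-(2 * Real.pi * lam * (L : ℝ) ^ 2)) *
          (‖EE q w‖ * Real.exp (8 * Real.pi * Yq τ (yy l q y))) := by ring
      _ = _ := by rw [hst]; ring

/-! ### The row -/

theorem amx (hS : SlsStmt) (hB : SlbStmt) (hT : TaiStmt) (hM : MnaStmt) (hC : CphStmt) :
    AmxStmt := by
  classical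
  intro g τ hτ ht0 l hl hodd lam h L hlam hL hh hYq R r w y hwy hN
  obtain ⟨i0, hi0⟩ := hh
  have hg : 1 ≤ g := Fin.pos i0
  have hh0 : h ≠ 0 := by
    rintro rfl
    exact hi0 (dvd_zero _)
  have hlpos : 0 < l := hl.pos
  have hlC : (l : ℂ) ≠ 0 := by exact_mod_cast hlpos.ne'
  obtain ⟨cl, rep, n, hcl⟩ := hC g l h hl ⟨i0, hi0⟩
  choose N hN using hN
  let G : Type := Ch g × (Fin g → Fin l) × Fin (l ^ (g - 1))
  let s0 : Ch g → (Fin g → ℤ) → ℤ := fun a q =>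
    ⌈-(dt h (hv a) + 2 * (dt h (fun m => (q m : ℝ)) / (l : ℝ))) - (L : ℝ) - 1⌉
  let qi : (Fin g → Fin l) → Fin g → ℤ := fun q i => ((q i).val : ℤ)
  let γ : Fin R → G := fun i => ((r i).1, (r i).2.2, cl (r i).2.1)
  let A : Fin R → Fin (2 * L + 4) → ℂ := fun i s =>
    Complex.exp (((8 * Real.pi * ((n (r i).2.1 : ℝ) / (l : ℝ)) *
      (((s0 (r i).1 (qi (r i).2.2) + ((s : ℕ) : ℤ) : ℤ) : ℝ) + dt h (hv (r i).1)) : ℝ) : ℂ) *
        Complex.I)
  let B : G → Fin (2 * L + 4) → Fin R → ℂ := fun t s j =>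
    EE (qi t.2.1) (w j) * sl τ t.1 h (s0 t.1 (qi t.2.1) + ((s : ℕ) : ℤ) - 2 * (l : ℤ) * N j)
      (WW τ l (rep t.2.2) (qi t.2.1) (w j))
  have hA : ∀ i s, ‖A i s‖ = 1 := fun i s => Complex.norm_exp_ofReal_mul_I _
  have hAB : ∀ i s j, A i s * B (γ i) s j = EE (qi (r i).2.2) (w j) *
      sl τ (r i).1 h (s0 (r i).1 (qi (r i).2.2) + ((s : ℕ) : ℤ) - 2 * (l : ℤ) * N j)
        (WW τ l (qi (r i).2.1) (qi (r i).2.2) (w j)) := by
    intro i s j
    obtain ⟨P, hP⟩ := hcl (r i).2.1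
    have h1 : WW τ l (qi (r i).2.1) (qi (r i).2.2) (w j) = fun m =>
        WW τ l (rep (cl (r i).2.1)) (qi (r i).2.2) (w j) m +
          ((n (r i).2.1 : ℂ) / (l : ℂ)) * (h m : ℂ) + (P m : ℂ) := by
      funext m
      have h2 : ((qi (r i).2.1 m : ℤ) : ℂ) = (rep (cl (r i).2.1) m : ℂ) +
          (n (r i).2.1 : ℂ) * (h m : ℂ) + (l : ℂ) * (P m : ℂ) := by
        have h3 := hP m
        have h4 : qi (r i).2.1 m = rep (cl (r i).2.1) m + n (r i).2.1 * h m + (l : ℤ) * P m := h3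
        rw [h4]
        push_cast
        ring
      unfold WW
      rw [h2]
      field_simp
      ring
    have h5 := (hS g τ hτ (r i).1 h).2
      (s0 (r i).1 (qi (r i).2.2) + ((s : ℕ) : ℤ) - 2 * (l : ℤ) * N j)
      (WW τ l (rep (cl (r i).2.1)) (qi (r i).2.2) (w j)) ((n (r i).2.1 : ℂ) / (l : ℂ)) P
    rw [h1, h5]
    have h6 : Complex.exp (8 * Real.pi * Complex.I * ((n (r i).2.1 : ℂ) / (l : ℂ)) *
        (((s0 (r i).1 (qi (r i).2.2) + ((s : ℕ) : ℤ) - 2 * (l : ℤ) * N j : ℤ) : ℂ) +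
          ((dt h (hv (r i).1) : ℝ) : ℂ))) = A i s := by
      simp only [A]
      have h7 : (8 * Real.pi * Complex.I * ((n (r i).2.1 : ℂ) / (l : ℂ)) *
        (((s0 (r i).1 (qi (r i).2.2) + ((s : ℕ) : ℤ) - 2 * (l : ℤ) * N j : ℤ) : ℂ) +
          ((dt h (hv (r i).1) : ℝ) : ℂ))) = (((8 * Real.pi * ((n (r i).2.1 : ℝ) / (l : ℝ)) *
      (((s0 (r i).1 (qi (r i).2.2) + ((s : ℕ) : ℤ) : ℤ) : ℝ) + dt h (hv (r i).1)) : ℝ) : ℂ) *
        Complex.I) + ((-(8 * (n (r i).2.1) * N j) : ℤ) : ℂ) * (2 * Real.pi * Complex.I) := by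
        push_cast
        field_simp
        ring
      rw [h7, Complex.exp_add, Complex.exp_int_mul_two_pi_mul_I, mul_one]
    rw [h6]
    simp only [B, γ]
    ring
  have hcore := fun i j => core hS hB hT hτ ht0 hlpos hlam hL hh0 hYq (qi (r i).2.1) (qi (r i).2.2)
    (r i).1 (w j) (y j) (hwy j) (N j) (hN j) (s0 (r i).1 (qi (r i).2.2)) rfl
  let ω : Fin R → ℝ := fun i => 4 * 2 ^ g *
    Real.exp (8 * Real.pi * Yq τ (fun m => ((lft (r i).2).2.2 m : ℝ)) / (l : ℝ) ^ 2)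
  let χ : Fin R → ℝ := fun j => t0 τ * Real.exp (8 * Real.pi * (l : ℝ) ^ 2 * Yq τ (y j))
  have key := hM (Fin R) G (2 * L + 4) γ
    (Matrix.of fun i j => FF τ l (lft (r i).2).2.1 (lft (r i).2).2.2 (r i).1 (w j))
    A B ω χ (Real.exp (-(2 * Real.pi * lam * (L : ℝ) ^ 2))) (Real.exp_pos _).le
    (Real.exp_le_one_iff.2 (by
      have := Real.pi_pos
      have : 0 ≤ 2 * Real.pi * lam * (L : ℝ) ^ 2 := by positivity
      linarith))
    (fun i => by positivity) (fun j => mul_pos ht0 (Real.exp_pos _))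
    (fun i s j => by
      rw [← norm_mul, hAB i s j]
      refine ((hcore i j).1 _).trans ?_
      have h1 : (0 : ℝ) ≤ 2 ^ g * (Real.exp (8 * Real.pi *
        Yq τ (fun m => ((qi (r i).2.2 m : ℤ) : ℝ)) / (l : ℝ) ^ 2) *
        (t0 τ * Real.exp (8 * Real.pi * (l : ℝ) ^ 2 * Yq τ (y j)))) := by positivity
      calc _ ≤ 4 * (2 ^ g * (Real.exp (8 * Real.pi *
        Yq τ (fun m => ((qi (r i).2.2 m : ℤ) : ℝ)) / (l : ℝ) ^ 2) *
        (t0 τ * Real.exp (8 * Real.pi * (l : ℝ) ^ 2 * Yq τ (y j))))) := by linarith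
        _ = ω i * χ j := by
          simp only [ω, χ]
          change _ = 4 * 2 ^ g * Real.exp (8 * Real.pi *
            Yq τ (fun m => ((qi (r i).2.2 m : ℤ) : ℝ)) / (l : ℝ) ^ 2) * _
          ring)
    (fun i j => by
      have h1 := (hcore i j).2
      have h2 : ∑ s, A i s * B (γ i) s j = ∑ s : Fin (2 * L + 4), EE (qi (r i).2.2) (w j) *
        sl τ (r i).1 h (s0 (r i).1 (qi (r i).2.2) + ((s : ℕ) : ℤ) - 2 * (l : ℤ) * N j)
          (WW τ l (qi (r i).2.1) (qi (r i).2.2) (w j)) :=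
        Finset.sum_congr rfl fun s _ => hAB i s j
      rw [h2]
      exact h1)
  have hcardG : Fintype.card G = 2 ^ g * l ^ (2 * g - 1) := by
    have h1 : Fintype.card G = 2 ^ g * (l ^ g * l ^ (g - 1)) := by
      simp only [G, Fintype.card_prod, Fintype.card_fun, Fintype.card_fin, ZMod.card]
    rw [h1, ← pow_add]
    congr 2
    omega
  rw [Fintype.card_fin, hcardG] at key
  have h3 : ∏ i, ω i = (4 * 2 ^ g : ℝ) ^ R * ∏ i : Fin R,
      Real.exp (8 * Real.pi * Yq τ (fun m => ((lft (r i).2).2.2 m : ℝ)) / (l : ℝ) ^ 2) := by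
    simp only [ω]
    rw [Finset.prod_mul_distrib, Finset.prod_const, Finset.card_univ, Fintype.card_fin]
  rw [h3] at key
  calc _ ≤ _ := key
    _ = _ := by
      push_cast
      ring

end Pool.Agent.ARC.H62
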