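import Pool.Agent.ARC.Stmts

/-!
# ARC, row CPH: cosets of a subgroup of order `l`
-/

set_option autoImplicit false

namespace Pool.Agent.ARC.H62

open scoped BigOperators

theorem cph : CphStmt := by
  classical
  intro g l h hl hne
  obtain ⟨j0, hj0⟩ := hne
  have hlz : Prime (l : ℤ) := Nat.prime_iff_prime_int.1 hl
  obtain ⟨w, u, huw⟩ := (Prime.coprime_iff_not_dvd hlz).2 hj0
  have : NeZero l := ⟨hl.ne_zero⟩
  have hcard : Fintype.card ({j : Fin g // j ≠ j0} → ZMod l) = l ^ (g - 1) := by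
    rw [Fintype.card_fun, ZMod.card, Fintype.card_subtype_compl,
      Fintype.card_fin, Fintype.card_subtype_eq]
  obtain ⟨φ⟩ : Nonempty (({j : Fin g // j ≠ j0} → ZMod l) ≃ Fin (l ^ (g - 1))) :=
    ⟨Fintype.equivFinOfCardEq hcard⟩
  let lift : ({j : Fin g // j ≠ j0} → ZMod l) → Fin g → ℤ := fun c j =>
    if hj : j ≠ j0 then ((c ⟨j, hj⟩).val : ℤ) else 0
  let cb : (Fin g → Fin l) → Fin g → ℤ := fun b j =>
    ((b j).val : ℤ) - u * ((b j0).val : ℤ) * h j
  let cl : (Fin g → Fin l) → ({j : Fin g // j ≠ j0} → ZMod l) := fun b j =>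
    ((cb b j.1 : ℤ) : ZMod l)
  have key : ∀ b j, (l : ℤ) ∣ cb b j - lift (cl b) j := by
    intro b j
    by_cases hj : j = j0
    · have h1 : lift (cl b) j = 0 := by
        simp only [lift, ne_eq, hj, not_true_eq_false, dite_false]
      rw [h1, hj]
      refine ⟨w * ((b j0).val : ℤ), ?_⟩
      simp only [cb]
      linear_combination ((b j0).val : ℤ) * (-huw)
    · have h1 : (((lift (cl b) j : ℤ)) : ZMod l) = ((cb b j : ℤ) : ZMod l) := by
        simp only [lift, cl, ne_eq, hj, not_false_eq_true, dite_true]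
        rw [Int.cast_natCast, ZMod.natCast_zmod_val]
      exact (ZMod.intCast_eq_intCast_iff_dvd_sub _ _ _).1 h1
  refine ⟨fun b => φ (cl b), fun t => lift (φ.symm t), fun b => u * ((b j0).val : ℤ), fun b => ?_⟩
  choose z hz using fun j => key b j
  refine ⟨z, fun i => ?_⟩
  simp only [Equiv.symm_apply_apply]
  have h1 : ((b i).val : ℤ) - u * ((b j0).val : ℤ) * h i - lift (cl b) i = l * z i := hz i
  linear_combination h1

end Pool.Agent.ARC.H62
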